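import Mathlib
import Pool.Agent.TH298.Sch.Avg

/-!
Project SC (helper245): the Riemann map of a Schiffer domain blows up on its circle of convergence.

Let `φ` be holomorphic in `|w| < R`, univalent near the closed unit disc, and let Schiffer's
problem (S) be solvable on `Ω = φ(D)`. If `|φ(w)| ≤ C (R - |w|)^(-α)` with `α < 1`, then `φ`
continues analytically to a larger disc. Statements of the building blocks (Props `S_...`).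

Logarithmic coordinate: `w = exp ω`, `ℓ = log R`, `a = lam / 4`.
-/

set_option autoImplicit false

open Complex MeasureTheory Metric Set Filter Topology ComplexConjugate
open Pool.Agent.TH298.Sch (Sol)

namespace Pool.Agent.Y245.SC

/-- the kernel `κ(x) = ∑ (-a)^(k+1) x^k / (k! (k+2)!)` -/
noncomputable def kap (a : ℝ) (x : ℂ) : ℂ :=
  ∑' k : ℕ, (-(a : ℂ)) ^ (k + 1) * x ^ k / ((k.factorial : ℂ) * ((k + 2).factorial : ℂ))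

/-- `Fc φ ω = conj (φ (exp (-conj ω)))`: holomorphic for `re ω > -ℓ`, equal to `conj (φ (exp ω))` on
the imaginary axis -/
noncomputable def Fc (φ : ℂ → ℂ) (ω : ℂ) : ℂ := conj (φ (exp (-(conj ω))))

/-- integral along the segment from `p` to `q` -/
noncomputable def seg (g : ℂ → ℂ) (p q : ℂ) : ℂ :=
  ∫ t in (0 : ℝ)..1, g (p + t * (q - p)) * (q - p)

/-- the Volterra kernel -/
noncomputable def ker (a : ℝ) (φ : ℂ → ℂ) (ω ω0 ξ : ℂ) : ℂ :=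
  ξ ^ 2 * kap a (ξ * (φ (exp ω) - φ (exp ω0))) * (deriv φ (exp ω) * exp ω)

/-- `Z(ω0) = F(ω0) - ∫_0^{ω0} ker(ω, ω0, F(ω)) dω` -/
noncomputable def Zf (a : ℝ) (φ : ℂ → ℂ) (ω0 : ℂ) : ℂ :=
  Fc φ ω0 - seg (fun ω => ker a φ ω ω0 (Fc φ ω)) 0 ω0

/-- the Laplacian -/
noncomputable def lap (V : ℂ → ℂ) (x : ℂ) : ℂ :=
  fderiv ℝ (fun y => fderiv ℝ V y 1) x 1 + fderiv ℝ (fun y => fderiv ℝ V y I) x I

/-! ### complex analysis around the unit circle -/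

/-- the kernel is entire and of exponential type -/
def S_KAP : Prop := ∀ a : ℝ, 0 ≤ a → Differentiable ℂ (kap a) ∧
  (∀ x : ℂ, ‖kap a x‖ ≤ a * Real.exp (a * ‖x‖)) ∧
  ∀ x : ℂ, HasSum (fun k : ℕ =>
    (-(a : ℂ)) ^ (k + 1) * x ^ k / ((k.factorial : ℂ) * ((k + 2).factorial : ℂ))) (kap a x)

/-- an injective holomorphic function has no critical point -/
def S_NZ : Prop := ∀ (φ : ℂ → ℂ) (r : ℝ), DifferentiableOn ℂ φ (ball 0 r) →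
  InjOn φ (ball 0 r) → ∀ w ∈ ball (0 : ℂ) r, deriv φ w ≠ 0

/-- Green's formula in the unit disc for products `A * conj B` -/
def S_DISC : Prop := ∀ (r : ℝ) (A B : ℂ → ℂ), 1 < r → DifferentiableOn ℂ A (ball 0 r) →
  DifferentiableOn ℂ B (ball 0 r) →
  2 * I * ∫ w in ball (0 : ℂ) 1, A w * conj (deriv B w) =
    ∮ w in C(0, 1), A w * conj (B w)

/-- change of variables -/
def S_CHG : Prop := ∀ (φ : ℂ → ℂ) (r : ℝ) (V : ℂ → ℂ), 1 < r → DifferentiableOn ℂ φ (ball 0 r) →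
  InjOn φ (ball 0 r) →
  ∫ z in φ '' ball 0 1, V z = ∫ w in ball (0 : ℂ) 1, V (φ w) * (deriv φ w * conj (deriv φ w))

/-! ### from the weak problem to identities on the circle -/

/-- the weak formulation tested with a `C²` function -/
def S_WEAK : Prop := ∀ (Ω : Set ℂ) (lam c : ℝ) (u : ℂ → ℝ) (G : ℂ → ℂ) (V : ℂ → ℂ),
  Bornology.IsBounded Ω → MeasurableSet Ω → Sol Ω lam c u G → ContDiff ℝ 2 V →
  ∫ x in Ω, (u x : ℂ) * (lap V x + lam * V x) = c * ∫ x in Ω, lap V x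

/-- a finite part of the Vekua series, as a global `C²` function -/
def S_VEK : Prop := ∀ (φ : ℂ → ℂ) (r a : ℝ) (h : ℕ → ℂ → ℂ) (N : ℕ), 1 < r →
  DifferentiableOn ℂ φ (ball 0 r) → InjOn φ (ball 0 r) →
  (∀ k, DifferentiableOn ℂ (h k) (ball 0 r)) →
  (∀ k, ∀ w ∈ ball (0 : ℂ) r, deriv (h (k + 1)) w = h k w * deriv φ w) →
  ∃ V : ℂ → ℂ, ContDiff ℝ 2 V ∧
    (∀ w ∈ ball (0 : ℂ) 1, V (φ w) =
      ∑ k ∈ Finset.range (N + 1), (-(a : ℂ)) ^ k / (k.factorial : ℂ) * conj (φ w) ^ k * h k w) ∧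
    (∀ w ∈ ball (0 : ℂ) 1, lap V (φ w) = -(4 * a) *
      ∑ k ∈ Finset.range N, (-(a : ℂ)) ^ k / (k.factorial : ℂ) * conj (φ w) ^ k * h k w)

/-- the property of the map `φ` obtained from the solvability of (S) -/
def SerProp (a r : ℝ) (φ : ℂ → ℂ) : Prop := ∀ h : ℕ → ℂ → ℂ,
  (∀ k, DifferentiableOn ℂ (h k) (ball 0 r)) →
  (∀ k, ∀ w ∈ ball (0 : ℂ) r, deriv (h (k + 1)) w = h k w * deriv φ w) →
  (∃ C M : ℝ, ∀ k, ∀ w ∈ closedBall (0 : ℂ) 1, ‖h k w‖ ≤ C * M ^ k) →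
  HasSum (fun k : ℕ => (-(a : ℂ)) ^ k / ((k + 1).factorial : ℂ) *
    ∮ w in C(0, 1), conj (φ w) ^ (k + 1) * h k w * deriv φ w) 0

def S_SER : Prop := S_DISC → S_CHG → S_WEAK → S_VEK →
  ∀ (φ : ℂ → ℂ) (r lam c : ℝ) (u : ℂ → ℝ) (G : ℂ → ℂ), 1 < r → 0 < lam → c ≠ 0 →
  DifferentiableOn ℂ φ (ball 0 r) → InjOn φ (ball 0 r) → Sol (φ '' ball 0 1) lam c u G →
  SerProp (lam / 4) r φ

/-- identity I1 -/
def IOne (a : ℝ) (φ : ℂ → ℂ) : Prop := ∀ z0 : ℂ,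
  ∮ w in C(0, 1), conj (φ w) ^ 2 * kap a (conj (φ w) * (φ w - z0)) * deriv φ w = 0

/-- identity I2 -/
def ITwo (a : ℝ) (φ : ℂ → ℂ) : Prop := ∀ n : ℕ,
  ∮ w in C(0, 1), (conj (φ w) * w ^ n + conj (φ w) ^ 2 * deriv φ w *
    ∫ t in (0 : ℝ)..1, (t * w) ^ n * kap a (conj (φ w) * (φ w - φ (t * w))) * w) = 0

def S_IONE : Prop := S_KAP → ∀ (φ : ℂ → ℂ) (r a : ℝ), 1 < r → 0 < a →
  DifferentiableOn ℂ φ (ball 0 r) → SerProp a r φ → IOne a φ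

def S_ITWO : Prop := S_KAP → ∀ (φ : ℂ → ℂ) (r a : ℝ), 1 < r → 0 < a →
  DifferentiableOn ℂ φ (ball 0 r) → (∀ w ∈ ball (0 : ℂ) r, deriv φ w ≠ 0) →
  SerProp a r φ → ITwo a φ

/-! ### segments and parametric integrals -/

/-- segment integrals in convex sets: additivity and the derivative in the end point -/
def S_SEG : Prop := ∀ (S : Set ℂ) (g : ℂ → ℂ), IsOpen S → Convex ℝ S → DifferentiableOn ℂ g S →
  (∀ p ∈ S, ∀ q ∈ S, ∀ s ∈ S, seg g p q + seg g q s = seg g p s) ∧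
  ∀ p ∈ S, ∀ q ∈ S, HasDerivAt (fun x => seg g p x) (g q) q

/-- parametric integrals of holomorphic functions are holomorphic -/
def S_PAR : Prop := ∀ (U : Set ℂ) (g : ℂ → ℝ → ℂ), IsOpen U →
  ContinuousOn (fun p : ℂ × ℝ => g p.1 p.2) (U ×ˢ Icc (0 : ℝ) 1) →
  (∀ t ∈ Icc (0 : ℝ) 1, DifferentiableOn ℂ (fun z => g z t) U) →
  DifferentiableOn ℂ (fun z => ∫ t in (0 : ℝ)..1, g z t) U

/-- the strip -/
def Strip (ℓ : ℝ) : Set ℂ := {ω : ℂ | -ℓ < ω.re ∧ ω.re < ℓ}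

def S_ZHOL : Prop := S_KAP → S_PAR → ∀ (φ : ℂ → ℂ) (a ℓ : ℝ), 0 < a → 0 < ℓ →
  DifferentiableOn ℂ φ (ball 0 (Real.exp ℓ)) → DifferentiableOn ℂ (Zf a φ) (Strip ℓ)

def S_ZPER : Prop := S_KAP → S_SEG → ∀ (φ : ℂ → ℂ) (a ℓ : ℝ), 0 < a → 0 < ℓ →
  DifferentiableOn ℂ φ (ball 0 (Real.exp ℓ)) → IOne a φ →
  ∀ ω ∈ Strip ℓ, Zf a φ (ω + 2 * Real.pi * I) = Zf a φ ω

def S_ZMOM : Prop := S_KAP → S_SEG → ∀ (φ : ℂ → ℂ) (a ℓ : ℝ), 0 < a → 0 < ℓ →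
  DifferentiableOn ℂ φ (ball 0 (Real.exp ℓ)) → IOne a φ → ITwo a φ →
  ∀ n : ℕ, ∫ θ in (0 : ℝ)..2 * Real.pi, Zf a φ (θ * I) * exp ((n + 1) * (θ * I)) = 0

/-- periodic holomorphic functions on a strip with vanishing negative coefficients extend -/
def S_EXT : Prop := ∀ (Z : ℂ → ℂ) (ℓ : ℝ), 0 < ℓ → DifferentiableOn ℂ Z (Strip ℓ) →
  (∀ ω ∈ Strip ℓ, Z (ω + 2 * Real.pi * I) = Z ω) →
  (∀ n : ℕ, ∫ θ in (0 : ℝ)..2 * Real.pi, Z (θ * I) * exp ((n + 1) * (θ * I)) = 0) →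
  ∃ G : ℂ → ℂ, DifferentiableOn ℂ G (ball 0 1) ∧
    ∀ ω : ℂ, -ℓ < ω.re → ω.re < 0 → Z ω = G (exp ω)

/-! ### the Volterra equation -/

/-- the Volterra equation for `F` to the left of the imaginary axis -/
def Volt (a ℓ : ℝ) (φ G : ℂ → ℂ) : Prop := ∀ ω0 : ℂ, -ℓ < ω0.re → ω0.re < 0 →
  Fc φ ω0 = G (exp ω0) + seg (fun ω => ker a φ ω ω0 (Fc φ ω)) 0 ω0

/-- Picard iteration: local solutions extend to a disc of uniform size -/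
def S_PIC : Prop := S_PAR → ∀ (ω1 : ℂ) (ρ δ M L : ℝ) (A : ℂ → ℂ) (κ : ℂ × ℂ × ℂ → ℂ) (F : ℂ → ℂ),
  0 < δ → δ ≤ ρ → 0 < M → 0 ≤ L → ρ * L ≤ M / 8 →
  DifferentiableOn ℂ A (ball ω1 ρ) → (∀ ω ∈ ball ω1 ρ, ‖A ω‖ ≤ M) →
  DifferentiableOn ℂ κ (ball ω1 ρ ×ˢ ball ω1 ρ ×ˢ ball 0 (3 * M)) →
  (∀ p ∈ ball ω1 ρ ×ˢ ball ω1 ρ ×ˢ ball 0 (3 * M), ‖κ p‖ ≤ L) →
  DifferentiableOn ℂ F (ball ω1 δ) → (∀ ω ∈ ball ω1 δ, ‖F ω‖ ≤ M) →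
  (∀ ω0 ∈ ball ω1 δ, F ω0 = A ω0 + seg (fun ω => κ (ω, ω0, F ω)) ω1 ω0) →
  ∃ F' : ℂ → ℂ, DifferentiableOn ℂ F' (ball ω1 ρ) ∧ (∀ ω ∈ ball ω1 ρ, ‖F' ω‖ ≤ 2 * M) ∧
    EqOn F' F (ball ω1 δ)

/-- uniform local extension -/
def LocExt (ℓ ρ C : ℝ) (φ : ℂ → ℂ) : Prop := ∀ ω1 : ℂ, -ℓ < ω1.re → ω1.re < -ℓ + ρ / 4 →
  |ω1.im| ≤ Real.pi → ∃ F' : ℂ → ℂ, DifferentiableOn ℂ F' (ball ω1 ρ) ∧
    (∀ ω ∈ ball ω1 ρ, ‖F' ω‖ ≤ C) ∧ F' =ᶠ[𝓝 ω1] Fc φ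

def S_LOC : Prop := S_KAP → S_SEG → S_PAR → S_PIC → ∀ (φ G : ℂ → ℂ) (a ℓ M : ℝ), 0 < a → 0 < ℓ →
  DifferentiableOn ℂ φ (ball 0 (Real.exp ℓ)) → DifferentiableOn ℂ G (ball 0 1) →
  Volt a ℓ φ G → (∀ ω : ℂ, -ℓ < ω.re → ω.re ≤ 0 → ‖Fc φ ω‖ ≤ M) →
  ∃ ρ C : ℝ, 0 < ρ ∧ LocExt ℓ ρ C φ

/-- the coefficients of `φ` from the uniform local extension -/
def S_COEF : Prop := ∀ (φ : ℂ → ℂ) (ℓ ρ C : ℝ), 0 < ℓ → 0 < ρ →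
  DifferentiableOn ℂ φ (ball 0 (Real.exp ℓ)) → LocExt ℓ ρ C φ →
  ∃ (R' : ℝ) (ψ : ℂ → ℂ), Real.exp ℓ < R' ∧ DifferentiableOn ℂ ψ (ball 0 R') ∧
    EqOn ψ φ (ball 0 (Real.exp ℓ))

/-- growth of exponent less than one improves to boundedness -/
def S_BOOT : Prop := S_KAP → S_SEG → ∀ (φ G : ℂ → ℂ) (a ℓ α C : ℝ), 0 < a → 0 < ℓ → α < 1 →
  DifferentiableOn ℂ φ (ball 0 (Real.exp ℓ)) → DifferentiableOn ℂ G (ball 0 1) →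
  Volt a ℓ φ G → (∀ ω : ℂ, -ℓ < ω.re → ω.re < 0 → ‖Fc φ ω‖ ≤ C * (ℓ + ω.re) ^ (-α)) →
  ∃ M : ℝ, ∀ ω : ℂ, -ℓ < ω.re → ω.re ≤ 0 → ‖Fc φ ω‖ ≤ M

end Pool.Agent.Y245.SC
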