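import Pool.Agent.Y245.SC.Stm2
import Pool.Agent.Y769.SC.Kap
import Pool.Agent.Y769.SC.Nz
import Pool.Agent.Y50.SC.Disc
import Pool.Agent.Y287.SC.Weak
import Pool.Agent.Y281.SC.Vek
import Pool.Agent.Y975.SC.Ser
import Pool.Agent.Y257.SC.Circ
import Pool.Agent.Y257.SC.CircB
import Pool.Agent.Y87.SC.Seg
import Pool.Agent.Y769.SC.Par
import Pool.Agent.Y657.SC.Zhol
import Pool.Agent.Y532.SC.Zper
import Pool.Agent.Y664.SC.ZMom
import Pool.Agent.Y458.SC.ExtT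
import Pool.Agent.Y381.SC.Pic
import Pool.Agent.Y79.SC.Loc2
import Pool.Agent.Y779.SC.Boot2
import Pool.Agent.Y427.SC.Tr
import Pool.Agent.Y232.SC.Gr

/-!
Project SC: assembly of the first part.
-/

set_option autoImplicit false

open Complex MeasureTheory Metric Set Filter Topology ComplexConjugate
open Pool.Agent.TH298.Sch (Sol)

namespace Pool.Agent.Y245.SC

theorem t_KAP : S_KAP := Pool.Agent.Y769.SC.kap
theorem t_NZ : S_NZ := Pool.Agent.Y769.SC.nz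
theorem t_SEG : S_SEG := Pool.Agent.Y87.SC.Seg.seg_thm
theorem t_PAR : S_PAR := Pool.Agent.Y769.SC.par

/-- the Volterra equation from a solution of (S) -/
theorem volt_of_sol (φ : ℂ → ℂ) (r R lam c : ℝ) (u : ℂ → ℝ) (G : ℂ → ℂ) (hr : 1 < r) (hrR : r ≤ R)
    (hφ : DifferentiableOn ℂ φ (ball 0 R)) (hinj : InjOn φ (ball 0 r)) (hlam : 0 < lam)
    (hc : c ≠ 0) (hS : Sol (φ '' ball 0 1) lam c u G) :
    ∃ G' : ℂ → ℂ, DifferentiableOn ℂ G' (ball 0 1) ∧ Volt (lam / 4) (Real.log R) φ G' := by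
  have hR0 : 0 < R := by linarith
  have hℓ : 0 < Real.log R := Real.log_pos (by linarith)
  have hexp : Real.exp (Real.log R) = R := Real.exp_log hR0
  have hφr : DifferentiableOn ℂ φ (ball 0 r) := hφ.mono (ball_subset_ball hrR)
  have ha : 0 < lam / 4 := by positivity
  have hser : SerProp (lam / 4) r φ :=
    Pool.Agent.Y975.SC.Ser.ser Pool.Agent.Y50.SC.disc Pool.Agent.Y287.SC.chg
      Pool.Agent.Y287.SC.weak (Pool.Agent.Y281.SC.vek t_NZ) φ r lam c u G hr hlam hc hφr hinj hS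
  have h1 : IOne (lam / 4) φ := Pool.Agent.Y257.SC.ione t_KAP φ r _ hr ha hφr hser
  have h2 : ITwo (lam / 4) φ :=
    Pool.Agent.Y257.SC.itwo t_SEG t_KAP φ r _ hr ha hφr (t_NZ φ r hφr hinj) hser
  have hφ' : DifferentiableOn ℂ φ (ball 0 (Real.exp (Real.log R))) := by rw [hexp]; exact hφ
  have z1 := Pool.Agent.Y657.SC.zhol t_KAP t_PAR φ (lam / 4) (Real.log R) ha hℓ hφ'
  have z2 := Pool.Agent.Y532.SC.zper t_KAP t_SEG φ (lam / 4) (Real.log R) ha hℓ hφ' h1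
  have z3 := Pool.Agent.Y664.SC.zmom t_KAP t_SEG φ (lam / 4) (Real.log R) ha hℓ hφ' h1 h2
  obtain ⟨G', hG', hZ⟩ := Pool.Agent.Y458.SC.t_EXT (Zf (lam / 4) φ) (Real.log R) hℓ z1 z2 z3
  refine ⟨G', hG', ?_⟩
  intro ω0 h3 h4
  have := hZ ω0 h3 h4
  unfold Zf at this
  rw [← this]
  ring

/-- local continuation at a point of the circle of convergence -/
theorem main1 (φ : ℂ → ℂ) (r R lam c : ℝ) (u : ℂ → ℝ) (G : ℂ → ℂ) (hr : 1 < r) (hrR : r ≤ R)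
    (hφ : DifferentiableOn ℂ φ (ball 0 R)) (hinj : InjOn φ (ball 0 r)) (hlam : 0 < lam)
    (hc : c ≠ 0) (hS : Sol (φ '' ball 0 1) lam c u G)
    (w1 : ℂ) (hw1 : ‖w1‖ = R) (α C δ : ℝ) (hα : α < 1) (hδ : 0 < δ)
    (hb : ∀ w : ℂ, ‖w‖ < R → ‖w - w1‖ < δ → ‖φ w‖ ≤ C * (R - ‖w‖) ^ (-α)) :
    ∃ (ε : ℝ) (ψ : ℂ → ℂ), 0 < ε ∧ DifferentiableOn ℂ ψ (ball w1 ε) ∧
      ∀ w ∈ ball w1 ε, ‖w‖ < R → ψ w = φ w := by
  have hR0 : 0 < R := by linarith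
  have hℓ : 0 < Real.log R := Real.log_pos (by linarith)
  have hexp : Real.exp (Real.log R) = R := Real.exp_log hR0
  have ha : 0 < lam / 4 := by positivity
  obtain ⟨G', hG', hV⟩ := volt_of_sol φ r R lam c u G hr hrR hφ hinj hlam hc hS
  have hφ' : DifferentiableOn ℂ φ (ball 0 (Real.exp (Real.log R))) := by rw [hexp]; exact hφ
  have hw1e : exp (((Real.log R : ℝ) : ℂ) + (arg w1 : ℝ) * I) = w1 := by
    rw [Complex.exp_add, ← Complex.ofReal_exp, hexp, ← hw1]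
    exact Complex.norm_mul_exp_arg_mul_I w1
  -- reduce to a nonnegative exponent
  obtain ⟨C1, hC1⟩ : ∃ C1 : ℝ, ∀ w : ℂ, ‖w‖ < R → ‖w - w1‖ < δ →
      ‖φ w‖ ≤ C1 * (R - ‖w‖) ^ (-(max α 0)) := by
    rcases le_total 0 α with h0 | h0
    · exact ⟨C, fun w h3 h4 => by rw [max_eq_left h0]; exact hb w h3 h4⟩
    · refine ⟨|C| * R ^ (-α), fun w h3 h4 => ?_⟩
      rw [max_eq_right h0, neg_zero, Real.rpow_zero, mul_one]
      have h5 := hb w h3 h4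
      have h6 : (R - ‖w‖) ^ (-α) ≤ R ^ (-α) :=
        Real.rpow_le_rpow (by linarith) (by linarith [norm_nonneg w]) (by linarith)
      have h7 : 0 ≤ (R - ‖w‖) ^ (-α) := Real.rpow_nonneg (by linarith) _
      calc ‖φ w‖ ≤ C * (R - ‖w‖) ^ (-α) := h5
        _ ≤ |C| * (R - ‖w‖) ^ (-α) := mul_le_mul_of_nonneg_right (le_abs_self C) h7
        _ ≤ |C| * R ^ (-α) := mul_le_mul_of_nonneg_left h6 (abs_nonneg C)
  obtain ⟨C', δ', hδ', hgr⟩ := Pool.Agent.Y232.SC.gr φ (Real.log R) (max α 0) C1 (arg w1) δ hℓ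
    (le_max_right _ _) hδ hφ' (by
      intro w h3 h4
      rw [hexp] at h3 ⊢
      rw [hw1e] at h4
      exact hC1 w h3 h4)
  obtain ⟨M, hM⟩ := Pool.Agent.Y779.SC.boot2 t_KAP t_SEG φ G' (lam / 4) (Real.log R) (max α 0) C'
    (arg w1) δ' ha hℓ hδ' (max_lt hα one_pos) hφ' hG' hV hgr
  obtain ⟨ρ, F', hρ, hF', hF2⟩ := Pool.Agent.Y79.SC.loc2 t_KAP t_SEG t_PAR
    Pool.Agent.Y381.SC.pic φ G' (lam / 4) (Real.log R) M (arg w1) δ' ha hℓ hδ' hφ' hG' hV hM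
  obtain ⟨ε, ψ, hε, hψ, hψ2⟩ := Pool.Agent.Y427.SC.tr φ F' (Real.log R) (arg w1) ρ hℓ hρ hF' hF2
  rw [hw1e, hexp] at *
  exact ⟨ε, ψ, hε, hψ, hψ2⟩

end Pool.Agent.Y245.SC
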