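import Pool.Agent.Y245.SC.Stm3
import Pool.Agent.Y245.SC.Main1
import Pool.Agent.Y245.SG.Main
import Pool.Agent.Y388.SC.Shift
import Pool.Agent.Y448.SC.Res
import Pool.Agent.Y953.SC.Gen
import Pool.Agent.Y388.SC.Lapa
import Pool.Agent.Y219.SC.LapB
import Pool.Agent.Y427.SC.Sima
import Pool.Agent.Y618.SC.SimB
import Pool.Agent.Y987.SC.Loc
import Pool.Agent.Y427.SC.Geo

/-!
Project SC: assembly of the second part (a pole on the circle of convergence).
-/

set_option autoImplicit false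

open Complex MeasureTheory Metric Set Filter Topology ComplexConjugate
open Pool.Agent.TH298.Sch (Sol)
open Pool.Agent.Y245.SG (Bn)

namespace Pool.Agent.Y245.SC

theorem Fc_sub (φ : ℂ → ℂ) (b ω : ℂ) : Fc (fun w => φ w - conj b) ω = Fc φ ω - b := by
  unfold Fc
  simp

theorem ker_sub (a : ℝ) (φ : ℂ → ℂ) (b ω ω0 ξ : ℂ) :
    ker a (fun w => φ w - conj b) ω ω0 ξ = ker a φ ω ω0 ξ := by
  unfold ker
  rw [deriv_sub_const]
  congr 3
  ring_nf

theorem voltB_of_sol (φ : ℂ → ℂ) (r R lam c : ℝ) (u : ℂ → ℝ) (G : ℂ → ℂ) (hr : 1 < r) (hrR : r ≤ R)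
    (hφ : DifferentiableOn ℂ φ (ball 0 R)) (hinj : InjOn φ (ball 0 r)) (hlam : 0 < lam)
    (hc : c ≠ 0) (hS : Sol (φ '' ball 0 1) lam c u G) (b : ℂ) :
    ∃ G' : ℂ → ℂ, DifferentiableOn ℂ G' (ball 0 1) ∧ VoltB (lam / 4) (Real.log R) φ b G' := by
  obtain ⟨u', G1, hS'⟩ := Pool.Agent.Y388.SC.shift _ lam c u G (conj b) hS
  have him : (fun z => z - conj b) '' (φ '' ball 0 1) = (fun w => φ w - conj b) '' ball 0 1 := by
    rw [image_image]
  rw [him] at hS'
  obtain ⟨G', hG', hV⟩ := volt_of_sol (fun w => φ w - conj b) r R lam c u' G1 hr hrR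
    (hφ.sub_const _) (fun x hx y hy hxy => hinj hx hy (by simpa using hxy)) hlam hc hS'
  refine ⟨G', hG', ?_⟩
  intro ω0 h1 h2
  have h3 := hV ω0 h1 h2
  rw [Fc_sub] at h3
  rw [h3]
  simp only [Fc_sub, ker_sub]

theorem main2 (φ : ℂ → ℂ) (r R lam c : ℝ) (u : ℂ → ℝ) (G : ℂ → ℂ) (hr : 1 < r) (hrR : r ≤ R)
    (hφ : DifferentiableOn ℂ φ (ball 0 R)) (hinj : InjOn φ (ball 0 r)) (hlam : 0 < lam)
    (hc : c ≠ 0) (hS : Sol (φ '' ball 0 1) lam c u G)
    (w1 : ℂ) (hw1 : ‖w1‖ = R) (m : ℕ) (hm : 1 ≤ m) (ε : ℝ) (hε : 0 < ε) (E : ℂ → ℂ)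
    (hE : DifferentiableOn ℂ E (ball w1 ε)) (hE0 : E w1 ≠ 0)
    (hφE : ∀ w ∈ ball w1 ε, ‖w‖ < R → φ w = E w / (w - w1) ^ m) :
    ∃ (p : ℂ) (r0 : ℝ), 0 < r0 ∧ φ '' ball 0 1 = ball p r0 := by
  have hR0 : 0 < R := by linarith
  have hℓ : 0 < Real.log R := Real.log_pos (by linarith)
  have hexp : Real.exp (Real.log R) = R := Real.exp_log hR0
  have ha : 0 < lam / 4 := by positivity
  have hφ' : DifferentiableOn ℂ φ (ball 0 (Real.exp (Real.log R))) := by rw [hexp]; exact hφ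
  obtain ⟨y1, hy1⟩ : ∃ y1 : ℝ, y1 = arg w1 := ⟨_, rfl⟩
  have hw1e : exp (((Real.log R : ℝ) : ℂ) + y1 * I) = w1 := by
    rw [Complex.exp_add, ← Complex.ofReal_exp, hexp, ← hw1, hy1]
    exact Complex.norm_mul_exp_arg_mul_I w1
  obtain ⟨ℓ, hℓd⟩ : ∃ ℓ : ℝ, ℓ = Real.log R := ⟨_, rfl⟩
  rw [← hℓd] at hℓ hexp hφ' hw1e
  obtain ⟨ρ, E', hρ, hρℓ, hρ1, hE', hE'0, hFE⟩ := Pool.Agent.Y987.SC.trp φ E ℓ y1 ε m hℓ hε
    (by rw [hw1e]; exact hE) (by rw [hw1e]; exact hE0)
    (by rw [hw1e, hexp]; exact hφE)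
  obtain ⟨P, hP⟩ : ∃ P : ℂ, P = pt ℓ y1 := ⟨_, rfl⟩
  rw [← hP] at hE' hE'0 hFE
  have hPre : P.re = -ℓ := by rw [hP]; simp [pt]
  -- the ball around P lies in the left half plane
  have hball : ∀ ω ∈ ball P ρ, ω.re < 0 := by
    intro ω hω
    have h1 : |(ω - P).re| ≤ ‖ω - P‖ := Complex.abs_re_le_norm _
    rw [mem_ball_iff_norm] at hω
    rw [Complex.sub_re, hPre] at h1
    have := (abs_le.1 h1).2
    linarith
  have hexpb : ∀ ω ∈ ball P ρ, exp ω ∈ ball (0 : ℂ) 1 := by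
    intro ω hω
    rw [mem_ball_zero_iff, Complex.norm_exp]
    rw [← Real.exp_zero]
    exact Real.exp_lt_exp.2 (hball ω hω)
  have hinj1 : InjOn φ (ball 0 1) := hinj.mono (ball_subset_ball hr.le)
  have hφ1 : ∀ w ∈ ball (0 : ℂ) 1, DifferentiableAt ℂ φ w := fun w hw =>
    hφ.differentiableAt (isOpen_ball.mem_nhds (ball_subset_ball (by linarith) hw))
  have hx : ∀ ω ∈ ball P ρ,
      HasDerivAt (fun ω => φ (exp ω)) (deriv φ (exp ω) * exp ω) ω := fun ω hω =>
    (hφ1 _ (hexpb ω hω)).hasDerivAt.comp ω (Complex.hasDerivAt_exp ω)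
  have hxd : DifferentiableOn ℂ (fun ω => φ (exp ω)) (ball P ρ) := fun ω hω =>
    (hx ω hω).differentiableAt.differentiableWithinAt
  have hPb : P ∈ ball P ρ := mem_ball_self hρ
  have hxP : deriv (fun ω => φ (exp ω)) P ≠ 0 := by
    rw [(hx P hPb).deriv]
    refine mul_ne_zero ?_ (Complex.exp_ne_zero _)
    exact t_NZ φ r (hφ.mono (ball_subset_ball hrR)) hinj _ (ball_subset_ball hr.le (hexpb P hPb))
  have hxne : ∀ ω ∈ ball P ρ, ω ≠ P → φ (exp ω) ≠ φ (exp P) := by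
    intro ω hω hne heq
    have h1 := hinj1 (hexpb ω hω) (hexpb P hPb) heq
    rw [Complex.exp_eq_exp_iff_exists_int] at h1
    obtain ⟨n, hn⟩ := h1
    rw [mem_ball_iff_norm, hn, add_sub_cancel_left] at hω
    have hn0 : n ≠ 0 := by
      rintro rfl
      apply hne
      rw [hn]
      simp
    rw [norm_mul] at hω
    have h2 : (1 : ℝ) ≤ ‖(n : ℂ)‖ := by
      rw [Complex.norm_intCast]
      exact_mod_cast Int.one_le_abs hn0
    have h3 : ‖(2 * Real.pi * I : ℂ)‖ = 2 * Real.pi := by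
      simp [abs_of_pos Real.pi_pos]
    rw [h3] at hω
    nlinarith [Real.pi_gt_three]
  -- the exponential identities
  have hXdiff : DifferentiableOn ℂ (fun ω => E' ω / (ω - P) ^ m) (ball P ρ \ {P}) := by
    refine (hE'.mono diff_subset).div (by fun_prop) ?_
    intro ω hω
    exact pow_ne_zero _ (sub_ne_zero.2 hω.2)
  have hsub : sphere P (ρ / 2) ⊆ ball P ρ \ {P} := by
    intro ω hω
    rw [mem_sphere_iff_norm] at hω
    refine ⟨by rw [mem_ball_iff_norm, hω]; linarith, ?_⟩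
    intro h
    rw [mem_singleton_iff] at h
    rw [h, sub_self, norm_zero] at hω
    linarith
  have hWc : ContinuousOn (fun ω => deriv φ (exp ω) * exp ω) (ball P ρ) := by
    have h1 : ContinuousOn (deriv φ) (ball 0 1) :=
      ((hφ.mono (ball_subset_ball (by linarith))).deriv isOpen_ball).continuousOn
    exact (h1.comp Complex.continuous_exp.continuousOn hexpb).mul
      Complex.continuous_exp.continuousOn
  have hexpo : ∀ α β : ℂ, α * β = -((lam / 4 : ℝ) : ℂ) →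
      ∮ ω in C(P, ρ / 2), exp (α * φ (exp ω) + β * (E' ω / (ω - P) ^ m)) *
        (deriv φ (exp ω) * exp ω) = 0 := by
    refine Pool.Agent.Y953.SC.gen t_KAP (lam / 4) P (ρ / 2) (fun ω => E' ω / (ω - P) ^ m)
      (fun ω => φ (exp ω)) (fun ω => deriv φ (exp ω) * exp ω) ha (by linarith)
      (hXdiff.continuousOn.mono hsub) (hxd.continuousOn.mono (hsub.trans diff_subset))
      (hWc.mono (hsub.trans diff_subset)) ?_
    intro b z0
    obtain ⟨G', hG', hV⟩ := voltB_of_sol φ r R lam c u G hr hrR hφ hinj hlam hc hS b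
    rw [← hℓd] at hV
    have := Pool.Agent.Y448.SC.res t_KAP t_SEG t_PAR φ (fun ω => E' ω / (ω - P) ^ m) G' (lam / 4)
      ℓ y1 ρ b ha hℓ hρ hρℓ hφ' hinj1 hG' hV (by rw [← hP]; exact hXdiff)
      (by rw [← hP]; exact fun ω hω h => (hFE ω hω h).symm) z0
    rw [← hP] at this
    exact this
  have hexpo' : ∀ α β : ℂ, α * β = -((lam / 4 : ℝ) : ℂ) →
      ∮ ω in C(P, ρ / 2), exp (α * (fun ω => φ (exp ω)) ω +
        β * (fun ω => E' ω / (ω - P) ^ m) ω) * deriv (fun ω => φ (exp ω)) ω = 0 := by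
    intro α β hαβ
    rw [← hexpo α β hαβ]
    refine circleIntegral.integral_congr (by linarith) ?_
    intro ω hω
    simp only []
    rw [(hx ω (hsub hω).1).deriv]
  -- the order of the pole
  rcases Nat.lt_or_ge 1 m with hm2 | hm2
  · exact absurd hexpo' (Pool.Agent.Y219.SC.lapb Pool.Agent.Y388.SC.lapa (lam / 4) ρ P m
      (fun ω => φ (exp ω)) (fun ω => E' ω / (ω - P) ^ m) E' ha hρ hm2 hxd hxP hE' hE'0
      (fun ω _ _ => rfl))
  have hm1 : m = 1 := by omega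
  subst hm1
  obtain ⟨ct, g, hct, hg, hgE⟩ := Pool.Agent.Y987.SC.split ρ P (fun ω => φ (exp ω)) E' hρ hxd hxP
    hxne hE' hE'0
  obtain ⟨hB1, hg2⟩ := Pool.Agent.Y618.SC.simb Pool.Agent.Y427.SC.sima (lam / 4) ρ P
    (fun ω => φ (exp ω)) (fun ω => E' ω / (ω - P) ^ 1) g ct ha hρ hxd hxP hxne hg hct hgE hexpo'
  have hq : (((lam / 4 : ℝ) : ℂ)) * ct ≠ 0 :=
    mul_ne_zero (by exact_mod_cast ha.ne') hct
  have hgc : ∀ ω ∈ ball P ρ, g ω = g P := by
    rcases hg2 with h | ⟨n, hn, h⟩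
    · exact h
    · exact absurd ⟨hB1, h⟩ (Pool.Agent.Y245.SG.bourget (n + 1) _ (by omega) hq)
  -- the relation on the strip
  have hFcd : DifferentiableOn ℂ (Fc φ) (Strip ℓ) :=
    fun ω hω => (Pool.Agent.Y657.SC.fc_diff hφ' hω.1).differentiableWithinAt
  have hxS : DifferentiableOn ℂ (fun ω => φ (exp ω)) (Strip ℓ) := by
    intro ω hω
    have h1 : exp ω ∈ ball (0 : ℂ) (Real.exp ℓ) := Pool.Agent.Y657.SC.exp_mem hω.2
    exact ((hφ'.differentiableAt (isOpen_ball.mem_nhds h1)).comp ω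
      Complex.differentiableAt_exp).differentiableWithinAt
  have hSo : IsOpen (Strip ℓ) :=
    (isOpen_lt continuous_const Complex.continuous_re).inter
      (isOpen_lt Complex.continuous_re continuous_const)
  have hSc : IsPreconnected (Strip ℓ) := by
    have : Convex ℝ (Strip ℓ) :=
      (convex_halfSpace_re_gt (-ℓ)).inter (convex_halfSpace_re_lt ℓ)
    exact this.isPreconnected
  have hrel : EqOn (fun ω => (Fc φ ω - g P) * (φ (exp ω) - φ (exp P))) (fun _ => ct)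
      (Strip ℓ) := by
    have hω2 : P + ((ρ / 2 : ℝ) : ℂ) ∈ Strip ℓ := by
      constructor
      · simp only [Complex.add_re, Complex.ofReal_re, hPre]; linarith
      · simp only [Complex.add_re, Complex.ofReal_re, hPre]; linarith
    have hnear : (fun ω => (Fc φ ω - g P) * (φ (exp ω) - φ (exp P))) =ᶠ[𝓝 (P + ((ρ / 2 : ℝ) : ℂ))]
        (fun _ => ct) := by
      have hm1 : P + ((ρ / 2 : ℝ) : ℂ) ∈ ball P ρ ∩ {ω | -ℓ < ω.re} := by
        constructor
        · rw [mem_ball_iff_norm, add_sub_cancel_left, Complex.norm_real, Real.norm_eq_abs,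
            abs_of_pos (by linarith)]
          linarith
        · exact hω2.1
      filter_upwards [(isOpen_ball.inter (isOpen_lt continuous_const Complex.continuous_re)).mem_nhds
        hm1] with ω hω
      have h1 := hFE ω hω.1 hω.2
      have hne : ω ≠ P := by
        rintro rfl
        have := hω.2
        simp only [mem_setOf_eq] at this
        linarith
      have h2 := hgE ω hω.1 hne
      rw [h1, h2, hgc ω hω.1, add_sub_cancel_right]
      exact div_mul_cancel₀ _ (sub_ne_zero.2 (hxne ω hω.1 hne))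
    exact AnalyticOnNhd.eqOn_of_preconnected_of_eventuallyEq
      (((hFcd.sub_const _).mul (hxS.sub_const _)).analyticOnNhd hSo)
      (analyticOnNhd_const) hSc hω2 hnear
  refine Pool.Agent.Y427.SC.geo φ r ct (g P) (φ (exp P)) hr (hφ.mono (ball_subset_ball hrR)) hinj
    hct ?_
  intro w hw
  rw [mem_sphere_zero_iff_norm] at hw
  have hwe : exp (arg w * I) = w := by
    have := Complex.norm_mul_exp_arg_mul_I w
    rw [hw, Complex.ofReal_one, one_mul] at this
    exact this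
  have h1 := hrel (x := (arg w : ℂ) * I) ⟨by simp; linarith, by simp; linarith⟩
  simp only [Fc] at h1
  rw [hwe] at h1
  have h2 : exp (-(conj ((arg w : ℂ) * I))) = w := by
    rw [map_mul, Complex.conj_I, Complex.conj_ofReal, mul_neg, neg_neg, hwe]
  rw [h2] at h1
  exact h1

end Pool.Agent.Y245.SC
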