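import Pool.Agent.Y245.SC.Stm5
import Pool.Agent.Y245.SC.Main2

/-!
Project ES: assembly (isolated singularities on the circle of convergence, entire and meromorphic
Riemann maps).
-/

set_option autoImplicit false

open Complex MeasureTheory Metric Set Filter Topology ComplexConjugate
open Pool.Agent.TH298.Sch (Sol)
open Pool.Agent.Y245.SG (Bn)

namespace Pool.Agent.Y245.SC

/-- the conclusion of `S_ESSF` -/
def EssFalse : Prop := ∀ (a ρ : ℝ) (c : ℂ) (x X : ℂ → ℂ), 0 < a → 0 < ρ →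
  DifferentiableOn ℂ x (ball c ρ) → deriv x c ≠ 0 → Ess c ρ X →
  ¬ ∀ α β : ℂ, α * β = -(a : ℂ) →
    ∮ ω in C(c, ρ / 2), exp (α * x ω + β * X ω) * deriv x ω = 0

theorem main3 (hTRI : S_TRI) (hEF : EssFalse) (hTRE : S_TRE)
    (φ : ℂ → ℂ) (r R lam c : ℝ) (u : ℂ → ℝ) (G : ℂ → ℂ) (hr : 1 < r) (hrR : r ≤ R)
    (hφ : DifferentiableOn ℂ φ (ball 0 R)) (hinj : InjOn φ (ball 0 r)) (hlam : 0 < lam)
    (hc : c ≠ 0) (hS : Sol (φ '' ball 0 1) lam c u G)
    (w1 : ℂ) (hw1 : ‖w1‖ = R) (ε : ℝ) (hε : 0 < ε) (ψ : ℂ → ℂ)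
    (hψ : DifferentiableOn ℂ ψ (ball w1 ε \ {w1}))
    (hψφ : ∀ w ∈ ball w1 ε, ‖w‖ < R → ψ w = φ w) :
    (∃ (p : ℂ) (r0 : ℝ), 0 < r0 ∧ φ '' ball 0 1 = ball p r0) ∨
    ∃ E : ℂ → ℂ, DifferentiableOn ℂ E (ball w1 ε) ∧ ∀ w ∈ ball w1 ε, w ≠ w1 → E w = ψ w := by
  rcases hTRI w1 ε ψ hε hψ with hess | ⟨m, E, hE, hE0, hEψ⟩
  swap
  · rcases Nat.eq_zero_or_pos m with h0 | h0
    · right
      refine ⟨E, hE, fun w hw hne => ?_⟩
      rw [hEψ w hw hne, h0, pow_zero, div_one]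
    · left
      refine main2 φ r R lam c u G hr hrR hφ hinj hlam hc hS w1 hw1 m h0 ε hε E hE
        (by rcases hE0 with h | h
            · omega
            · exact h) ?_
      intro w hw hwR
      rw [← hψφ w hw hwR]
      refine hEψ w hw ?_
      rintro rfl
      linarith
  exfalso
  have hR0 : 0 < R := by linarith
  have hℓ : 0 < Real.log R := Real.log_pos (by linarith)
  have hexp : Real.exp (Real.log R) = R := Real.exp_log hR0
  have ha : 0 < lam / 4 := by positivity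
  have hφ' : DifferentiableOn ℂ φ (ball 0 (Real.exp (Real.log R))) := by rw [hexp]; exact hφ
  obtain ⟨y1, hy1⟩ : ∃ y1 : ℝ, y1 = arg w1 := ⟨_, rfl⟩
  have hw1e : exp (((Real.log R : ℝ) : ℂ) + y1 * I) = w1 := by
    rw [Complex.exp_add, ← Complex.ofReal_exp, hexp, ← hw1, hy1]
    exact Complex.norm_mul_exp_arg_mul_I w1
  obtain ⟨ℓ, hℓd⟩ : ∃ ℓ : ℝ, ℓ = Real.log R := ⟨_, rfl⟩
  rw [← hℓd] at hℓ hexp hφ' hw1e
  obtain ⟨ρ, X, hρ, hρℓ, hρ1, hX, hXF⟩ := hTRE φ ψ ℓ y1 ε hℓ hε (by rw [hw1e]; exact hess)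
    (by rw [hw1e, hexp]; exact hψφ)
  obtain ⟨P, hP⟩ : ∃ P : ℂ, P = pt ℓ y1 := ⟨_, rfl⟩
  rw [← hP] at hX hXF
  have hPre : P.re = -ℓ := by rw [hP]; simp [pt]
  -- the ball around P lies in the left half plane
  have hball : ∀ ω ∈ ball P ρ, ω.re < 0 := by
    intro ω hω
    have h1 : |(ω - P).re| ≤ ‖ω - P‖ := Complex.abs_re_le_norm _
    rw [mem_ball_iff_norm] at hω
    rw [Complex.sub_re, hPre] at h1
    have := (abs_le.1 h1).2
    linarith
  have hexpb : ∀ ω ∈ ball P ρ, exp ω ∈ ball (0 : ℂ) 1 := by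
    intro ω hω
    rw [mem_ball_zero_iff, Complex.norm_exp]
    rw [← Real.exp_zero]
    exact Real.exp_lt_exp.2 (hball ω hω)
  have hinj1 : InjOn φ (ball 0 1) := hinj.mono (ball_subset_ball hr.le)
  have hφ1 : ∀ w ∈ ball (0 : ℂ) 1, DifferentiableAt ℂ φ w := fun w hw =>
    hφ.differentiableAt (isOpen_ball.mem_nhds (ball_subset_ball (by linarith) hw))
  have hx : ∀ ω ∈ ball P ρ,
      HasDerivAt (fun ω => φ (exp ω)) (deriv φ (exp ω) * exp ω) ω := fun ω hω =>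
    (hφ1 _ (hexpb ω hω)).hasDerivAt.comp ω (Complex.hasDerivAt_exp ω)
  have hxd : DifferentiableOn ℂ (fun ω => φ (exp ω)) (ball P ρ) := fun ω hω =>
    (hx ω hω).differentiableAt.differentiableWithinAt
  have hPb : P ∈ ball P ρ := mem_ball_self hρ
  have hxP : deriv (fun ω => φ (exp ω)) P ≠ 0 := by
    rw [(hx P hPb).deriv]
    refine mul_ne_zero ?_ (Complex.exp_ne_zero _)
    exact t_NZ φ r (hφ.mono (ball_subset_ball hrR)) hinj _ (ball_subset_ball hr.le (hexpb P hPb))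
  have hsub : sphere P (ρ / 2) ⊆ ball P ρ \ {P} := by
    intro ω hω
    rw [mem_sphere_iff_norm] at hω
    refine ⟨by rw [mem_ball_iff_norm, hω]; linarith, ?_⟩
    intro h
    rw [mem_singleton_iff] at h
    rw [h, sub_self, norm_zero] at hω
    linarith
  have hWc : ContinuousOn (fun ω => deriv φ (exp ω) * exp ω) (ball P ρ) := by
    have h1 : ContinuousOn (deriv φ) (ball 0 1) :=
      ((hφ.mono (ball_subset_ball (by linarith))).deriv isOpen_ball).continuousOn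
    exact (h1.comp Complex.continuous_exp.continuousOn hexpb).mul
      Complex.continuous_exp.continuousOn
  have hexpo : ∀ α β : ℂ, α * β = -((lam / 4 : ℝ) : ℂ) →
      ∮ ω in C(P, ρ / 2), exp (α * φ (exp ω) + β * X ω) * (deriv φ (exp ω) * exp ω) = 0 := by
    refine Pool.Agent.Y953.SC.gen t_KAP (lam / 4) P (ρ / 2) X
      (fun ω => φ (exp ω)) (fun ω => deriv φ (exp ω) * exp ω) ha (by linarith)
      (hX.1.continuousOn.mono hsub) (hxd.continuousOn.mono (hsub.trans diff_subset))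
      (hWc.mono (hsub.trans diff_subset)) ?_
    intro b z0
    obtain ⟨G', hG', hV⟩ := voltB_of_sol φ r R lam c u G hr hrR hφ hinj hlam hc hS b
    rw [← hℓd] at hV
    have := Pool.Agent.Y448.SC.res t_KAP t_SEG t_PAR φ X G' (lam / 4)
      ℓ y1 ρ b ha hℓ hρ hρℓ hφ' hinj1 hG' hV (by rw [← hP]; exact hX.1)
      (by rw [← hP]; exact hXF) z0
    rw [← hP] at this
    exact this
  refine hEF (lam / 4) ρ P (fun ω => φ (exp ω)) X ha hρ hxd hxP hX ?_
  intro α β hαβ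
  rw [← hexpo α β hαβ]
  refine circleIntegral.integral_congr (by linarith) ?_
  intro ω hω
  simp only []
  rw [(hx ω (hsub hω).1).deriv]

/-- the exponential identities on the unit circle -/
theorem circ_of_sol (φ : ℂ → ℂ) (r lam c : ℝ) (u : ℂ → ℝ) (G : ℂ → ℂ) (hr : 1 < r)
    (hφ : DifferentiableOn ℂ φ (ball 0 r)) (hinj : InjOn φ (ball 0 r)) (hlam : 0 < lam)
    (hc : c ≠ 0) (hS : Sol (φ '' ball 0 1) lam c u G) (b z0 : ℂ) :
    ∮ w in C(0, 1), (conj (φ w) - b) ^ 2 *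
      kap (lam / 4) ((conj (φ w) - b) * (φ w - z0)) * deriv φ w = 0 := by
  have ha : 0 < lam / 4 := by positivity
  obtain ⟨u', G1, hS'⟩ := Pool.Agent.Y388.SC.shift _ lam c u G (conj b) hS
  have him : (fun z => z - conj b) '' (φ '' ball 0 1) = (fun w => φ w - conj b) '' ball 0 1 := by
    rw [image_image]
  rw [him] at hS'
  have hφb : DifferentiableOn ℂ (fun w => φ w - conj b) (ball 0 r) := hφ.sub_const _
  have hser : SerProp (lam / 4) r (fun w => φ w - conj b) :=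
    Pool.Agent.Y975.SC.Ser.ser Pool.Agent.Y50.SC.disc Pool.Agent.Y287.SC.chg
      Pool.Agent.Y287.SC.weak (Pool.Agent.Y281.SC.vek t_NZ) (fun w => φ w - conj b) r lam c u' G1
      hr hlam hc hφb (fun x hx y hy hxy => hinj hx hy (by simpa using hxy)) hS'
  have h1 : IOne (lam / 4) (fun w => φ w - conj b) :=
    Pool.Agent.Y257.SC.ione t_KAP _ r _ hr ha hφb hser
  have h2 := h1 (z0 - conj b)
  refine Eq.trans (circleIntegral.integral_congr zero_le_one ?_) h2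
  intro w _
  simp only [map_sub, Complex.conj_conj, deriv_sub_const]
  congr 4
  ring

theorem main4 (hENT : S_ENT) (hEF : EssFalse)
    (φ : ℂ → ℂ) (r lam c : ℝ) (u : ℂ → ℝ) (G : ℂ → ℂ) (hr : 1 < r)
    (hφ : Differentiable ℂ φ) (hinj : InjOn φ (ball 0 r)) (hlam : 0 < lam)
    (hc : c ≠ 0) (hS : Sol (φ '' ball 0 1) lam c u G) :
    ∃ (p : ℂ) (r0 : ℝ), 0 < r0 ∧ φ '' ball 0 1 = ball p r0 := by
  have ha : 0 < lam / 4 := by positivity
  have hd0 : deriv φ 0 ≠ 0 :=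
    t_NZ φ r hφ.differentiableOn hinj 0 (mem_ball_self (by linarith))
  have hnc : ¬ ∃ c0 : ℂ, ∀ w, φ w = c0 := by
    rintro ⟨c0, h0⟩
    apply hd0
    have : φ = fun _ => c0 := funext h0
    rw [this]
    simp
  have hcir : ∀ w ∈ sphere (0 : ℂ) 1, conj (φ (1 / conj w)) = conj (φ w) := by
    intro w hw
    rw [mem_sphere_zero_iff_norm] at hw
    have h1 : w * conj w = 1 := by
      rw [Complex.mul_conj, Complex.normSq_eq_norm_sq, hw]
      simp
    have h2 : conj w ≠ 0 := by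
      intro h
      rw [h, mul_zero] at h1
      exact zero_ne_one h1
    rw [div_eq_of_eq_mul h2 h1.symm]
  have hXc : ContinuousOn (fun w => conj (φ (1 / conj w))) (sphere (0 : ℂ) 1) := by
    refine ContinuousOn.congr (f := fun w => conj (φ w)) ?_ hcir
    exact (Complex.continuous_conj.comp hφ.continuous).continuousOn
  have hexpo : ∀ α β : ℂ, α * β = -((lam / 4 : ℝ) : ℂ) →
      ∮ w in C(0, 1), exp (α * φ w + β * (fun w => conj (φ (1 / conj w))) w) * deriv φ w = 0 := by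
    refine Pool.Agent.Y953.SC.gen t_KAP (lam / 4) 0 1 (fun w => conj (φ (1 / conj w))) φ (deriv φ)
      ha one_pos hXc hφ.continuous.continuousOn ?_ ?_
    · exact ((hφ.differentiableOn (s := univ)).deriv isOpen_univ).continuousOn.mono
        (subset_univ _)
    · intro b z0
      refine Eq.trans (circleIntegral.integral_congr zero_le_one ?_)
        (circ_of_sol φ r lam c u G hr hφ.differentiableOn hinj hlam hc hS b z0)
      intro w hw
      simp only []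
      rw [hcir w hw]
  have hρ : (2 : ℝ) / 2 = 1 := by norm_num
  rcases hENT φ hφ hnc with hess | ⟨m, E, hm, hE, hE0, hEX, hlin⟩
  · refine absurd ?_ (hEF (lam / 4) 2 0 φ (fun w => conj (φ (1 / conj w))) ha two_pos
      hφ.differentiableOn hd0 hess)
    rw [hρ]
    exact hexpo
  rcases Nat.lt_or_ge 1 m with hm2 | hm2
  · refine absurd ?_ (Pool.Agent.Y219.SC.lapb Pool.Agent.Y388.SC.lapa (lam / 4) 2 0 m φ
      (fun w => conj (φ (1 / conj w))) E ha two_pos hm2 hφ.differentiableOn hd0 hE hE0 hEX)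
    rw [hρ]
    exact hexpo
  obtain ⟨p, q, hq, hpq⟩ := hlin (by omega)
  refine ⟨p, ‖q‖, norm_pos_iff.2 hq, ?_⟩
  ext z
  simp only [mem_image, mem_ball_iff_norm, sub_zero]
  constructor
  · rintro ⟨w, hw, rfl⟩
    rw [hpq, add_sub_cancel_left, norm_mul]
    exact mul_lt_of_lt_one_right (norm_pos_iff.2 hq) hw
  · intro hz
    refine ⟨(z - p) / q, ?_, ?_⟩
    · rw [norm_div, div_lt_one (norm_pos_iff.2 hq)]
      exact hz
    · rw [hpq, mul_div_cancel₀ _ hq]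
      ring

theorem main5 (hMER : S_MER) (hENT : S_ENT) (hEF : EssFalse)
    (φ : ℂ → ℂ) (r lam c : ℝ) (u : ℂ → ℝ) (G : ℂ → ℂ) (hr : 1 < r)
    (hφ : DifferentiableOn ℂ φ (ball 0 r)) (hmer : ∀ z : ℂ, MeromorphicAt φ z)
    (hinj : InjOn φ (ball 0 r)) (hlam : 0 < lam)
    (hc : c ≠ 0) (hS : Sol (φ '' ball 0 1) lam c u G) :
    ∃ (p : ℂ) (r0 : ℝ), 0 < r0 ∧ φ '' ball 0 1 = ball p r0 := by
  have himg : ∀ Φ : ℂ → ℂ, EqOn Φ φ (ball 0 r) → Φ '' ball 0 1 = φ '' ball 0 1 := fun Φ h =>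
    image_congr fun w hw => h (ball_subset_ball hr.le hw)
  have hinj' : ∀ Φ : ℂ → ℂ, EqOn Φ φ (ball 0 r) → InjOn Φ (ball 0 r) := fun Φ h =>
    hinj.congr h.symm
  rcases hMER φ r hr hφ hmer with ⟨Φ, hΦ, hEq⟩ | ⟨R, Φ, w1, m, ε, E, hrR, hΦ, hEq, hw1, hm, hε,
    hE, hE0, hEΦ⟩
  · rw [← himg Φ hEq] at hS ⊢
    exact main4 hENT hEF Φ r lam c u G hr hΦ (hinj' Φ hEq) hlam hc hS
  · rw [← himg Φ hEq] at hS ⊢
    exact main2 Φ r R lam c u G hr hrR hΦ (hinj' Φ hEq) hlam hc hS w1 hw1 m hm ε hε E hE hE0 hEΦ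

end Pool.Agent.Y245.SC
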