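import Pool.Agent.Y245.SC.Stm4

/-!
Project ES (helper245), correction: for the tail of the series one needs a linear bound in addition
to the bound of `S_NORM` (for `n` much larger than `N` the factor `e^(n|τ|)` of `S_WV` is not
controlled by `exp(-n^(15/16))`).
-/

set_option autoImplicit false

open Complex MeasureTheory Metric Set Filter Topology ComplexConjugate

namespace Pool.Agent.Y245.SC

/-- normal radii of an entire function that is not a polynomial, with a linear bound for `n ≥ 2N` -/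
def S_NORM2 : Prop := ∀ f : ℕ → ℂ, (∀ R : ℝ, 0 < R → Summable fun n => ‖f n‖ * R ^ n) →
  (∀ n0 : ℕ, ∃ n ≥ n0, f n ≠ 0) → ∀ N0 : ℕ, ∃ (N : ℕ) (r : ℝ), N0 ≤ N ∧ (N0 : ℝ) ≤ r ∧ 0 < N ∧
    f N ≠ 0 ∧ (∀ n : ℕ, ‖f n‖ * r ^ n ≤ ‖f N‖ * r ^ N *
      Real.exp (-(((n : ℝ) - N) ^ 2 / (2 * (max (n : ℝ) N) ^ (17 / 16 : ℝ))))) ∧
    ∀ n : ℕ, 2 * N ≤ n → ‖f n‖ * r ^ n ≤ ‖f N‖ * r ^ N *
      Real.exp (-(((n : ℝ) - N) / (4 * (N : ℝ) ^ (1 / 16 : ℝ))))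

/-- `S_WV` with `S_NORM2` as hypothesis in place of `S_NORM` -/
def S_WV2 : Prop := S_LAUR → S_NORM2 → ∀ (c : ℂ) (ρ : ℝ) (X : ℂ → ℂ), 0 < ρ → Ess c ρ X →
  ∀ m N0 : ℕ, ∃ (N : ℕ) (r : ℝ) (ζm : ℂ) (H : ℂ → ℂ), N0 ≤ N ∧ (N0 : ℝ) ≤ r ∧
    WV (fun ζ => X (c + 1 / ζ)) N r ζm H ∧ (N : ℝ) ^ m * r ^ m ≤ ‖X (c + 1 / ζm)‖

theorem wv_of_wv2 (hl : S_LAUR) (hn : S_NORM2) (h : S_WV2) : S_WV := fun _ _ => h hl hn

theorem norm_of_norm2 (h : S_NORM2) : S_NORM := by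
  intro f hf hi N0
  obtain ⟨N, r, h1, h2, h3, h4, h5, -⟩ := h f hf hi N0
  exact ⟨N, r, h1, h2, h3, h4, h5⟩

end Pool.Agent.Y245.SC
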