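import Pool.Agent.Y245.SC.Main3
import Pool.Agent.Y953.ES.Tri
import Pool.Agent.Y849.ES.Laur
import Pool.Agent.Y290.ES.Norm2
import Pool.Agent.Y542.ES.Wv
import Pool.Agent.Y287.ES.Ph
import Pool.Agent.Y852.ES.Main
import Pool.Agent.Y290.ES.Lape
import Pool.Agent.Y441.ES.Essf
import Pool.Agent.Y67.ES.Tre
import Pool.Agent.Y287.ES.Mer

/-!
Project ES: final assembly.
-/

set_option autoImplicit false

open Complex MeasureTheory Metric Set Filter Topology ComplexConjugate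
open Pool.Agent.TH298.Sch (Sol)

namespace Pool.Agent.Y245.SC

theorem t_EF : EssFalse :=
  Pool.Agent.Y441.ES.essf Pool.Agent.Y849.ES.laur (norm_of_norm2 Pool.Agent.Y290.ES.norm2_thm)
    (wv_of_wv2 Pool.Agent.Y849.ES.laur Pool.Agent.Y290.ES.norm2_thm Pool.Agent.Y542.ES.wv2)
    Pool.Agent.Y287.ES.ph Pool.Agent.Y852.ES.inq Pool.Agent.Y290.ES.lape

end Pool.Agent.Y245.SC
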