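import Pool.Agent.Y245.SC.Stm

/-!
Project SC: local versions (at one point of the circle of convergence).
-/

set_option autoImplicit false

open Complex MeasureTheory Metric Set Filter Topology ComplexConjugate

namespace Pool.Agent.Y245.SC

/-- local extension across `-ℓ + i y1` when `F` is bounded near the horizontal segment that ends
there (replaces `S_LOC`) -/
def S_LOC2 : Prop := S_KAP → S_SEG → S_PAR → S_PIC → ∀ (φ G : ℂ → ℂ) (a ℓ M y1 δ : ℝ),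
  0 < a → 0 < ℓ → 0 < δ →
  DifferentiableOn ℂ φ (ball 0 (Real.exp ℓ)) → DifferentiableOn ℂ G (ball 0 1) →
  Volt a ℓ φ G →
  (∀ ω : ℂ, -ℓ < ω.re → ω.re ≤ 0 → |ω.im - y1| < δ → ‖Fc φ ω‖ ≤ M) →
  ∃ (ρ : ℝ) (F' : ℂ → ℂ), 0 < ρ ∧ DifferentiableOn ℂ F' (ball ((-ℓ : ℝ) + y1 * I) ρ) ∧
    ∀ ω ∈ ball (((-ℓ : ℝ) : ℂ) + y1 * I) ρ, -ℓ < ω.re → F' ω = Fc φ ω

/-- growth of exponent less than one improves to boundedness, near a horizontal segment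
(replaces `S_BOOT`) -/
def S_BOOT2 : Prop := S_KAP → S_SEG → ∀ (φ G : ℂ → ℂ) (a ℓ α C y1 δ : ℝ),
  0 < a → 0 < ℓ → 0 < δ → α < 1 →
  DifferentiableOn ℂ φ (ball 0 (Real.exp ℓ)) → DifferentiableOn ℂ G (ball 0 1) →
  Volt a ℓ φ G →
  (∀ ω : ℂ, -ℓ < ω.re → ω.re ≤ 0 → |ω.im - y1| < δ → ‖Fc φ ω‖ ≤ C * (ℓ + ω.re) ^ (-α)) →
  ∃ M : ℝ, ∀ ω : ℂ, -ℓ < ω.re → ω.re ≤ 0 → |ω.im - y1| < δ → ‖Fc φ ω‖ ≤ M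

/-- from the logarithmic coordinate back to the disc -/
def S_TR : Prop := ∀ (φ F' : ℂ → ℂ) (ℓ y1 ρ : ℝ), 0 < ℓ → 0 < ρ →
  DifferentiableOn ℂ F' (ball (((-ℓ : ℝ) : ℂ) + y1 * I) ρ) →
  (∀ ω ∈ ball (((-ℓ : ℝ) : ℂ) + y1 * I) ρ, -ℓ < ω.re → F' ω = Fc φ ω) →
  ∃ (ε : ℝ) (ψ : ℂ → ℂ), 0 < ε ∧ DifferentiableOn ℂ ψ (ball (exp ((ℓ : ℂ) + y1 * I)) ε) ∧
    ∀ w ∈ ball (exp ((ℓ : ℂ) + y1 * I)) ε, ‖w‖ < Real.exp ℓ → ψ w = φ w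

/-- the growth hypothesis in the logarithmic coordinate: near `w1 = exp (ℓ + i y1)` the bound
`|φ(w)| ≤ C (R - |w|)^(-α)` gives a bound for `F` on a horizontal half strip -/
def S_GR : Prop := ∀ (φ : ℂ → ℂ) (ℓ α C y1 δ : ℝ), 0 < ℓ → 0 ≤ α → 0 < δ →
  DifferentiableOn ℂ φ (ball 0 (Real.exp ℓ)) →
  (∀ w : ℂ, ‖w‖ < Real.exp ℓ → ‖w - exp ((ℓ : ℂ) + y1 * I)‖ < δ →
    ‖φ w‖ ≤ C * (Real.exp ℓ - ‖w‖) ^ (-α)) →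
  ∃ C' δ' : ℝ, 0 < δ' ∧ ∀ ω : ℂ, -ℓ < ω.re → ω.re ≤ 0 → |ω.im - y1| < δ' →
    ‖Fc φ ω‖ ≤ C' * (ℓ + ω.re) ^ (-α)

end Pool.Agent.Y245.SC
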