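import Pool.Agent.Y245.SC.Stm2
import Pool.Agent.Y245.SG.Stm

/-!
Project SC, second part: a pole of the Riemann map on its circle of convergence.
`x(ω) = φ(e^ω)`, `X(ω)` = continuation of `Fc φ` to a punctured neighbourhood of `-ℓ + i y1`.
-/

set_option autoImplicit false

open Complex MeasureTheory Metric Set Filter Topology ComplexConjugate
open Pool.Agent.TH298.Sch (Sol)
open Pool.Agent.Y245.SG (Bn)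

namespace Pool.Agent.Y245.SC

/-- the point `-ℓ + i y1` -/
noncomputable def pt (ℓ y1 : ℝ) : ℂ := ((-ℓ : ℝ) : ℂ) + y1 * I

/-- the Volterra equation for `F - b` -/
def VoltB (a ℓ : ℝ) (φ : ℂ → ℂ) (b : ℂ) (G : ℂ → ℂ) : Prop := ∀ ω0 : ℂ, -ℓ < ω0.re →
  ω0.re < 0 → Fc φ ω0 - b = G (exp ω0) + seg (fun ω => ker a φ ω ω0 (Fc φ ω - b)) 0 ω0

/-- translation invariance of problem (S) -/
def S_SHIFT : Prop := ∀ (Ω : Set ℂ) (lam c : ℝ) (u : ℂ → ℝ) (G : ℂ → ℂ) (β : ℂ),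
  Sol Ω lam c u G → ∃ (u' : ℂ → ℝ) (G' : ℂ → ℂ), Sol ((fun z => z - β) '' Ω) lam c u' G'

/-- monodromy: the loop integral of the kernel around an isolated singularity vanishes -/
def S_RES : Prop := S_KAP → S_SEG → S_PAR → ∀ (φ X G : ℂ → ℂ) (a ℓ y1 ρ : ℝ) (b : ℂ),
  0 < a → 0 < ℓ → 0 < ρ → ρ < ℓ →
  DifferentiableOn ℂ φ (ball 0 (Real.exp ℓ)) → InjOn φ (ball 0 1) →
  DifferentiableOn ℂ G (ball 0 1) → VoltB a ℓ φ b G →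
  DifferentiableOn ℂ X (ball (pt ℓ y1) ρ \ {pt ℓ y1}) →
  (∀ ω ∈ ball (pt ℓ y1) ρ, -ℓ < ω.re → X ω = Fc φ ω) →
  ∀ z0 : ℂ, ∮ ω in C(pt ℓ y1, ρ / 2),
    (X ω - b) ^ 2 * kap a ((X ω - b) * (φ (exp ω) - z0)) * (deriv φ (exp ω) * exp ω) = 0

/-- from the Bessel kernel to exponentials -/
def S_GEN : Prop := S_KAP → ∀ (a : ℝ) (c : ℂ) (r : ℝ) (X x W : ℂ → ℂ), 0 < a → 0 < r →
  ContinuousOn X (sphere c r) → ContinuousOn x (sphere c r) → ContinuousOn W (sphere c r) →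
  (∀ b z0 : ℂ, ∮ ω in C(c, r), (X ω - b) ^ 2 * kap a ((X ω - b) * (x ω - z0)) * W ω = 0) →
  ∀ α β : ℂ, α * β = -(a : ℂ) → ∮ ω in C(c, r), exp (α * x ω + β * X ω) * W ω = 0

/-- Laplace's method -/
def S_LAPA : Prop := ∀ (A : ℕ → ℂ) (h g : ℕ → ℝ → ℂ) (c C μ : ℝ) (g0 : ℂ), 0 < c → 0 < μ →
  g0 ≠ 0 → Tendsto (fun k => ‖A k‖) atTop atTop →
  (∀ k, ContinuousOn (h k) (Icc (-Real.pi) Real.pi)) →
  (∀ k, ContinuousOn (g k) (Icc (-Real.pi) Real.pi)) →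
  (∀ᶠ k in atTop, ∀ θ ∈ Icc (-Real.pi) Real.pi, (A k * (h k θ - h k 0)).re ≤ -c * ‖A k‖ * θ ^ 2) →
  (∀ᶠ k in atTop, ∀ θ ∈ Icc (-Real.pi) Real.pi, ‖g k θ‖ ≤ C) →
  (∀ u : ℝ, Tendsto (fun k => A k * (h k (u / √‖A k‖) - h k 0)) atTop
    (𝓝 (((-(μ * u ^ 2 / 2) : ℝ)) : ℂ))) →
  (∀ u : ℝ, Tendsto (fun k => g k (u / √‖A k‖)) atTop (𝓝 g0)) →
  ∀ᶠ k in atTop, ∫ θ in (-Real.pi)..Real.pi, exp (A k * (h k θ - h k 0)) * g k θ ≠ 0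

/-- a pole of order at least two is impossible -/
def S_LAPB : Prop := S_LAPA → ∀ (a ρ : ℝ) (c : ℂ) (m : ℕ) (x X E : ℂ → ℂ), 0 < a → 0 < ρ →
  2 ≤ m → DifferentiableOn ℂ x (ball c ρ) → deriv x c ≠ 0 → DifferentiableOn ℂ E (ball c ρ) →
  E c ≠ 0 → (∀ ω ∈ ball c ρ, ω ≠ c → X ω = E ω / (ω - c) ^ m) →
  ¬ ∀ α β : ℂ, α * β = -(a : ℂ) →
    ∮ ω in C(c, ρ / 2), exp (α * x ω + β * X ω) * deriv x ω = 0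

/-- exact residues -/
def S_SIMA : Prop := ∀ (r r' : ℝ) (c : ℂ) (y : ℂ → ℂ) (α γ : ℂ) (n : ℕ), 0 < r → r < r' →
  DifferentiableOn ℂ y (ball c r') → y c = 0 → deriv y c ≠ 0 →
  (∀ ω ∈ closedBall c r, ω ≠ c → y ω ≠ 0) →
  ∮ ω in C(c, r), exp (α * y ω + γ / y ω) * y ω ^ n * deriv y ω =
    2 * Real.pi * I * γ ^ (n + 1) * Bn (n + 1) (-(α * γ))

/-- a simple pole: the residue is quantised and there is no regular part -/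
def S_SIMB : Prop := S_SIMA → ∀ (a ρ : ℝ) (c : ℂ) (x X g : ℂ → ℂ) (ct : ℂ), 0 < a → 0 < ρ →
  DifferentiableOn ℂ x (ball c ρ) → deriv x c ≠ 0 → (∀ ω ∈ ball c ρ, ω ≠ c → x ω ≠ x c) →
  DifferentiableOn ℂ g (ball c ρ) → ct ≠ 0 →
  (∀ ω ∈ ball c ρ, ω ≠ c → X ω = ct / (x ω - x c) + g ω) →
  (∀ α β : ℂ, α * β = -(a : ℂ) →
    ∮ ω in C(c, ρ / 2), exp (α * x ω + β * X ω) * deriv x ω = 0) →
  Bn 1 (a * ct) = 0 ∧ ((∀ ω ∈ ball c ρ, g ω = g c) ∨ ∃ n : ℕ, 1 ≤ n ∧ Bn (n + 1) (a * ct) = 0)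

/-- the polar part in the coordinate `x` -/
def S_SPLIT : Prop := ∀ (ρ : ℝ) (c : ℂ) (x E : ℂ → ℂ), 0 < ρ →
  DifferentiableOn ℂ x (ball c ρ) → deriv x c ≠ 0 → (∀ ω ∈ ball c ρ, ω ≠ c → x ω ≠ x c) →
  DifferentiableOn ℂ E (ball c ρ) → E c ≠ 0 →
  ∃ (ct : ℂ) (g : ℂ → ℂ), ct ≠ 0 ∧ DifferentiableOn ℂ g (ball c ρ) ∧
    ∀ ω ∈ ball c ρ, ω ≠ c → E ω / (ω - c) ^ 1 = ct / (x ω - x c) + g ω

/-- the geometric end of the proof -/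
def S_GEO : Prop := ∀ (φ : ℂ → ℂ) (r : ℝ) (ct s0 xs : ℂ), 1 < r → DifferentiableOn ℂ φ (ball 0 r) →
  InjOn φ (ball 0 r) → ct ≠ 0 →
  (∀ w ∈ sphere (0 : ℂ) 1, (conj (φ w) - s0) * (φ w - xs) = ct) →
  ∃ (p : ℂ) (R : ℝ), 0 < R ∧ φ '' ball 0 1 = ball p R

/-- a pole of `φ` at `exp (ℓ + i y1)` in the logarithmic coordinate -/
def S_TRP : Prop := ∀ (φ E : ℂ → ℂ) (ℓ y1 ε : ℝ) (m : ℕ), 0 < ℓ → 0 < ε →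
  DifferentiableOn ℂ E (ball (exp ((ℓ : ℂ) + y1 * I)) ε) → E (exp ((ℓ : ℂ) + y1 * I)) ≠ 0 →
  (∀ w ∈ ball (exp ((ℓ : ℂ) + y1 * I)) ε, ‖w‖ < Real.exp ℓ →
    φ w = E w / (w - exp ((ℓ : ℂ) + y1 * I)) ^ m) →
  ∃ (ρ : ℝ) (E' : ℂ → ℂ), 0 < ρ ∧ ρ < ℓ ∧ ρ < 1 ∧ DifferentiableOn ℂ E' (ball (pt ℓ y1) ρ) ∧
    E' (pt ℓ y1) ≠ 0 ∧
    ∀ ω ∈ ball (pt ℓ y1) ρ, -ℓ < ω.re → Fc φ ω = E' ω / (ω - pt ℓ y1) ^ m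

end Pool.Agent.Y245.SC
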