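import Pool.Agent.Y245.SC.Stm3

/-!
Project ES (helper245): isolated essential singularities, by Wiman-Valiron theory.

Notation: `X` holomorphic in a punctured disc around `c`, `f(ζ) = X(c + 1/ζ)` near `∞`. At a normal
radius `r` with central index `N` the function is `f(ζm) exp(Nτ + H(τ))` at `ζm e^τ`,
`|τ| < N^(-9/16)`, where `ζm` is a point of maximum modulus on `|ζ| = r`. With `ζs = ζm e^(iη)`: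
`E(θ) = (x(c + e^(iθ)/ζs) - x(c)) ζs / x'(c + 1/ζs)`, `φs(θ) = f(ζs e^(-iθ)) / f(ζs)`,
`Nc = N + H'(iη)`, `P(θ) = E(θ) - E(0) + (φs(θ) - 1)/Nc`.
-/

set_option autoImplicit false

open Complex MeasureTheory Metric Set Filter Topology ComplexConjugate

namespace Pool.Agent.Y245.SC

/-- `X` is holomorphic in the punctured disc and not of moderate growth at `c` -/
def Ess (c : ℂ) (ρ : ℝ) (X : ℂ → ℂ) : Prop :=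
  DifferentiableOn ℂ X (ball c ρ \ {c}) ∧
  ∀ (m : ℕ) (K : ℝ), ∃ᶠ ω in 𝓝[≠] c, K < ‖X ω‖ * ‖ω - c‖ ^ m

/-- trichotomy for isolated singularities -/
def S_TRI : Prop := ∀ (c : ℂ) (ρ : ℝ) (X : ℂ → ℂ), 0 < ρ → DifferentiableOn ℂ X (ball c ρ \ {c}) →
  Ess c ρ X ∨ ∃ (m : ℕ) (E : ℂ → ℂ), DifferentiableOn ℂ E (ball c ρ) ∧ (m = 0 ∨ E c ≠ 0) ∧
    ∀ ω ∈ ball c ρ, ω ≠ c → X ω = E ω / (ω - c) ^ m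

/-- the principal part is an entire function of `ζ = 1/(ω - c)` -/
def S_LAUR : Prop := ∀ (c : ℂ) (ρ : ℝ) (X : ℂ → ℂ), 0 < ρ →
  DifferentiableOn ℂ X (ball c ρ \ {c}) →
  ∃ (F : ℂ → ℂ) (B : ℝ), Differentiable ℂ F ∧
    ∀ ζ : ℂ, 2 / ρ ≤ ‖ζ‖ → ‖X (c + 1 / ζ) - F ζ‖ ≤ B

/-- normal radii of an entire function that is not a polynomial -/
def S_NORM : Prop := ∀ f : ℕ → ℂ, (∀ R : ℝ, 0 < R → Summable fun n => ‖f n‖ * R ^ n) →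
  (∀ n0 : ℕ, ∃ n ≥ n0, f n ≠ 0) → ∀ N0 : ℕ, ∃ (N : ℕ) (r : ℝ), N0 ≤ N ∧ (N0 : ℝ) ≤ r ∧ 0 < N ∧
    f N ≠ 0 ∧ ∀ n : ℕ, ‖f n‖ * r ^ n ≤ ‖f N‖ * r ^ N *
      Real.exp (-(((n : ℝ) - N) ^ 2 / (2 * (max (n : ℝ) N) ^ (17 / 16 : ℝ))))

/-- Wiman-Valiron data at a point of maximum modulus -/
def WV (f : ℂ → ℂ) (N : ℕ) (r : ℝ) (ζm : ℂ) (H : ℂ → ℂ) : Prop :=
  0 < r ∧ ‖ζm‖ = r ∧ f ζm ≠ 0 ∧ (∀ ζ : ℂ, ‖ζ‖ = r → ‖f ζ‖ ≤ ‖f ζm‖) ∧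
  DifferentiableOn ℂ H (ball 0 ((N : ℝ) ^ (-(9 / 16 : ℝ)))) ∧ H 0 = 0 ∧
  (∀ τ ∈ ball (0 : ℂ) ((N : ℝ) ^ (-(9 / 16 : ℝ))), ‖H τ‖ ≤ 1) ∧
  ∀ τ ∈ ball (0 : ℂ) ((N : ℝ) ^ (-(9 / 16 : ℝ))), f (ζm * exp τ) = f ζm * exp (N * τ + H τ)

def S_WV : Prop := S_LAUR → S_NORM → ∀ (c : ℂ) (ρ : ℝ) (X : ℂ → ℂ), 0 < ρ → Ess c ρ X →
  ∀ m N0 : ℕ, ∃ (N : ℕ) (r : ℝ) (ζm : ℂ) (H : ℂ → ℂ), N0 ≤ N ∧ (N0 : ℝ) ≤ r ∧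
    WV (fun ζ => X (c + 1 / ζ)) N r ζm H ∧ (N : ℝ) ^ m * r ^ m ≤ ‖X (c + 1 / ζm)‖

/-- choice of the phase -/
def S_PH : Prop := ∀ (c : ℂ) (ρ a : ℝ) (x : ℂ → ℂ), 0 < ρ → 0 < a → DifferentiableOn ℂ x (ball c ρ) →
  deriv x c ≠ 0 → ∃ N1 : ℕ, ∀ (f : ℂ → ℂ) (N : ℕ) (r : ℝ) (ζm : ℂ) (H : ℂ → ℂ), N1 ≤ N →
  (N1 : ℝ) ≤ r → WV f N r ζm H →
  ∃ (η A : ℝ), |η| ≤ Real.pi / N * (1 + (N : ℝ) ^ (-(1 / 4 : ℝ))) ∧ 0 < A ∧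
    (A : ℂ) ^ 2 = -(a * deriv x (c + 1 / (ζm * exp (η * I))) * f (ζm * exp (η * I)) *
      (N + deriv H (η * I)) / (ζm * exp (η * I)))

/-- the function `P(θ) = E(θ) - E(0) + (φs(θ) - 1)/Nc` -/
noncomputable def PP (c : ℂ) (x f : ℂ → ℂ) (N : ℕ) (H : ℂ → ℂ) (ζm : ℂ) (η θ : ℝ) : ℂ :=
  (x (c + exp (θ * I) / (ζm * exp (η * I))) - x (c + 1 / (ζm * exp (η * I)))) *
      (ζm * exp (η * I)) / deriv x (c + 1 / (ζm * exp (η * I))) +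
    (f (ζm * exp (η * I) * exp (-(θ * I))) / f (ζm * exp (η * I)) - 1) / (N + deriv H (η * I))

/-- the inequalities for `P` -/
def S_IN : Prop := ∀ (c : ℂ) (ρ : ℝ) (x : ℂ → ℂ), 0 < ρ → DifferentiableOn ℂ x (ball c ρ) →
  deriv x c ≠ 0 → ∃ (N1 : ℕ) (C : ℝ), ∀ (f : ℂ → ℂ) (N : ℕ) (r : ℝ) (ζm : ℂ) (H : ℂ → ℂ) (η : ℝ),
  N1 ≤ N → (N1 : ℝ) ≤ r → WV f N r ζm H →
  |η| ≤ Real.pi / N * (1 + (N : ℝ) ^ (-(1 / 4 : ℝ))) →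
  (∀ θ : ℝ, |θ| ≤ 1 / N → (PP c x f N H ζm η θ).re ≤ -(N * θ ^ 2 / 8)) ∧
  (∀ θ : ℝ, 1 / (N : ℝ) ≤ |θ| → |θ| ≤ Real.pi → (PP c x f N H ζm η θ).re ≤ -(θ ^ 2 / 16)) ∧
  (∀ θ : ℝ, |θ| ≤ 1 / N → ‖PP c x f N H ζm η θ + N * θ ^ 2 / 2‖ ≤
    C * ((N : ℝ) ^ (7 / 8 : ℝ) * θ ^ 2 + (N : ℝ) ^ 2 * |θ| ^ 3))

/-- Laplace's method, two scales -/
def S_LAPE : Prop := ∀ (A : ℕ → ℝ) (N : ℕ → ℕ) (P g : ℕ → ℝ → ℂ) (C : ℝ) (g0 : ℂ), g0 ≠ 0 →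
  Tendsto N atTop atTop → (∀ k, (N k : ℝ) ^ 4 ≤ A k) →
  (∀ k, ContinuousOn (P k) (Icc (-Real.pi) Real.pi)) →
  (∀ k, ContinuousOn (g k) (Icc (-Real.pi) Real.pi)) →
  (∀ k, ∀ θ : ℝ, |θ| ≤ 1 / N k → (P k θ).re ≤ -(N k * θ ^ 2 / 8)) →
  (∀ k, ∀ θ : ℝ, 1 / (N k : ℝ) ≤ |θ| → |θ| ≤ Real.pi → (P k θ).re ≤ -(θ ^ 2 / 16)) →
  (∀ k, ∀ θ : ℝ, |θ| ≤ 1 / N k → ‖P k θ + N k * θ ^ 2 / 2‖ ≤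
    C * ((N k : ℝ) ^ (7 / 8 : ℝ) * θ ^ 2 + (N k : ℝ) ^ 2 * |θ| ^ 3)) →
  (∀ k, ∀ θ ∈ Icc (-Real.pi) Real.pi, ‖g k θ‖ ≤ C) →
  (∀ u : ℝ, Tendsto (fun k => g k (u / √(A k * N k))) atTop (𝓝 g0)) →
  ∀ᶠ k in atTop, ∫ θ in (-Real.pi)..Real.pi, exp (A k * P k θ) * g k θ ≠ 0

/-- isolated essential singularities are impossible -/
def S_ESSF : Prop := S_LAUR → S_NORM → S_WV → S_PH → S_IN → S_LAPE →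
  ∀ (a ρ : ℝ) (c : ℂ) (x X : ℂ → ℂ), 0 < a → 0 < ρ → DifferentiableOn ℂ x (ball c ρ) →
  deriv x c ≠ 0 → Ess c ρ X →
  ¬ ∀ α β : ℂ, α * β = -(a : ℂ) →
    ∮ ω in C(c, ρ / 2), exp (α * x ω + β * X ω) * deriv x ω = 0

/-- essential singularities in the logarithmic coordinate -/
def S_TRE : Prop := ∀ (φ ψ : ℂ → ℂ) (ℓ y1 ε : ℝ), 0 < ℓ → 0 < ε →
  Ess (exp ((ℓ : ℂ) + y1 * I)) ε ψ →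
  (∀ w ∈ ball (exp ((ℓ : ℂ) + y1 * I)) ε, ‖w‖ < Real.exp ℓ → ψ w = φ w) →
  ∃ (ρ : ℝ) (X : ℂ → ℂ), 0 < ρ ∧ ρ < ℓ ∧ ρ < 1 ∧ Ess (pt ℓ y1) ρ X ∧
    ∀ ω ∈ ball (pt ℓ y1) ρ, -ℓ < ω.re → X ω = Fc φ ω

/-- entire functions, reflected -/
def S_ENT : Prop := ∀ φ : ℂ → ℂ, Differentiable ℂ φ → (¬ ∃ c0 : ℂ, ∀ w, φ w = c0) →
  Ess 0 2 (fun w => conj (φ (1 / conj w))) ∨
  ∃ (m : ℕ) (E : ℂ → ℂ), 1 ≤ m ∧ DifferentiableOn ℂ E (ball 0 2) ∧ E 0 ≠ 0 ∧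
    (∀ w ∈ ball (0 : ℂ) 2, w ≠ 0 → conj (φ (1 / conj w)) = E w / (w - 0) ^ m) ∧
    (m = 1 → ∃ p q : ℂ, q ≠ 0 ∧ ∀ w, φ w = p + q * w)

/-- meromorphic functions in the plane -/
def S_MER : Prop := ∀ (φ : ℂ → ℂ) (r : ℝ), 1 < r → DifferentiableOn ℂ φ (ball 0 r) →
  (∀ z : ℂ, MeromorphicAt φ z) →
  (∃ Φ : ℂ → ℂ, Differentiable ℂ Φ ∧ EqOn Φ φ (ball 0 r)) ∨
  ∃ (R : ℝ) (Φ : ℂ → ℂ) (w1 : ℂ) (m : ℕ) (ε : ℝ) (E : ℂ → ℂ), r ≤ R ∧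
    DifferentiableOn ℂ Φ (ball 0 R) ∧ EqOn Φ φ (ball 0 r) ∧ ‖w1‖ = R ∧ 1 ≤ m ∧ 0 < ε ∧
    DifferentiableOn ℂ E (ball w1 ε) ∧ E w1 ≠ 0 ∧
    ∀ w ∈ ball w1 ε, ‖w‖ < R → Φ w = E w / (w - w1) ^ m

end Pool.Agent.Y245.SC
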